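import Pool.Agent.ASO.Stmts3
import Pool.Agent.Helper88_AT3.Loc
import Pool.Agent.Helper20_PP.Rst

/-!
# Squad ASO, row LBU: existence and uniqueness of the local blocks

The proof of LOC (`Helper88_AT3/Loc.lean`) for a subgroup of the defect group.
-/

open scoped BigOperators

set_option autoImplicit false

noncomputable section

namespace Pool.Agent.PP.SO.H89

open Pool.Agent.Helper51_AWC Pool.Agent.Helper79_WRA Pool.Agent.PP Pool.Agent.PP.KF
open Pool.Agent.PP.K9 Pool.Agent.PP.K9.H97 Pool.Agent.PP.H75 Pool.Agent.PP.T3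
open Pool.Agent.PP.T3.H88

attribute [local instance] Ideal.Quotient.field

section tools

variable {F G : Type} [Field F] [Group G] [Finite G] {ℓ : ℕ} [Fact ℓ.Prime]

omit [Fact ℓ.Prime] in
/-- the restriction to the centraliser of an `ℓ`-subgroup -/
theorem idem_cent (hF : GoodF ℓ F) {e : G → F} (he : IsIdem e) {Q : Subgroup G}
    (hQ : IsPGroup ℓ Q) : IsIdem (fun t : Subgroup.centralizer (Q : Set G) => e t) := by
  have hn : Subgroup.centralizer (Q : Set G) ≤ Subgroup.normalizer (Q : Set G) :=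
    Subgroup.centralizer_le_normalizer _
  have h := (H20.brm ℓ F hF G Q (Subgroup.centralizer (Q : Set G)) hQ le_rfl hn).2.2 e he
  have h2 : (fun t : Subgroup.centralizer (Q : Set G) => br Q e t) =
      fun t : Subgroup.centralizer (Q : Set G) => e t := by
    funext t
    exact H66.br_of_mem t.2
  rwa [h2] at h

omit [Fact ℓ.Prime] in
/-- `br_V` is multiplicative on the idempotents of a subgroup which contains `V` -/
theorem br_mul' (hF : GoodF ℓ F) {V H : Subgroup G} (hV : IsPGroup ℓ V)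
    (hVC : V ≤ H) {b c : G → F} (hb : Ix H b) (hc : Ix H c) :
    br V (mulF b c) = mulF (br V b) (br V c) :=
  H66.br_mulF hF hV (fun p hp => (cj_eq_iff p b).1 (hb.inv (hVC hp)))
    (fun p hp => (cj_eq_iff p c).1 (hc.inv (hVC hp)))

omit [Fact ℓ.Prime] in
/-- the image of an idempotent under `br_V` -/
theorem ix_br' (hF : GoodF ℓ F) {V H : Subgroup G} (hV : IsPGroup ℓ V)
    (hVC : V ≤ H) (hXC : Subgroup.centralizer (V : Set G) ≤ H) {b : G → F}
    (hb : Ix H b) : Ix (Subgroup.centralizer (V : Set G)) (br V b) := by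
  refine ⟨fun x hx => H66.br_of_not_mem hx, ?_, ?_⟩
  · intro x y
    change br V b (y * x * (y : G)⁻¹) = br V b x
    have hmem : (y : G) * x * (y : G)⁻¹ ∈ Subgroup.centralizer (V : Set G) :=
      Subgroup.mul_mem _ (Subgroup.mul_mem _ y.2 x.2) (Subgroup.inv_mem _ y.2)
    rw [H66.br_of_mem hmem, H66.br_of_mem x.2]
    exact (cj_eq_iff (y : G) b).1 (hb.inv (hXC y.2)) x
  · rw [← mulF_res (Subgroup.centralizer (V : Set G)) _ (fun x hx => H66.br_of_not_mem hx),
      ← br_mul' hF hV hVC hb hb, hb.mul]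

/-- the conditions for the local block, for a subgroup `H` -/
structure Lh (e g : G → F) (V H : Subgroup G) (b : G → F) : Prop where
  blk : Bx H b
  und : mulF (fun t : H => e t) (fun t : H => b t) = fun t : H => b t
  gam : mulF (br V b) g = g

theorem lh_unique (hF : GoodF ℓ F) {e g : G → F} {V H : Subgroup G} (hV : IsPGroup ℓ V)
    (hVC : V ≤ H) (hg : g ≠ 0) {b b' : G → F}
    (hb : Lh e g V H b) (hb' : Lh e g V H b') : b = b' := by
  rcases hb.blk.dich hb'.blk with h | h
  · exact h
  · exfalso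
    apply hg
    have h1 := br_mul' hF hV hVC hb.blk.ix hb'.blk.ix
    rw [h, br_zero] at h1
    calc g = mulF (br V b) (mulF (br V b') g) := by rw [hb'.gam, hb.gam]
      _ = mulF (mulF (br V b) (br V b')) g := (mulF_assoc _ _ _).symm
      _ = 0 := by rw [← h1, mulF_zero_left]

theorem lh_exists (hF : GoodF ℓ F) {e g : G → F} {V H : Subgroup G} (hL : Ld ℓ e V g)
    (hVC : V ≤ H) (hXC : Subgroup.centralizer (V : Set G) ≤ H)
    (heI : IsIdem (fun t : H => e t)) : ∃ b, Lh e g V H b := by
  set E : G → F := PP.ext0 H (fun t : H => e t) with hE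
  have hbrE : br V E = br V e := by
    funext x
    by_cases hx : x ∈ Subgroup.centralizer (V : Set G)
    · rw [H66.br_of_mem hx, H66.br_of_mem hx, hE, H46.ext0_of_mem _ (hXC hx)]
    · rw [H66.br_of_not_mem hx, H66.br_of_not_mem hx]
  have hext_add : ∀ a b : H → F, PP.ext0 H (a + b) = PP.ext0 H a + PP.ext0 H b := by
    intro a b
    funext x
    by_cases hx : x ∈ H
    · rw [H46.ext0_of_mem _ hx, Pi.add_apply, Pi.add_apply, H46.ext0_of_mem _ hx,
        H46.ext0_of_mem _ hx]
    · rw [H46.ext0_of_not_mem _ hx, Pi.add_apply, H46.ext0_of_not_mem _ hx,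
        H46.ext0_of_not_mem _ hx, add_zero]
  have hext_zero : PP.ext0 H (0 : H → F) = 0 := by
    funext x
    by_cases hx : x ∈ H
    · rw [H46.ext0_of_mem _ hx]
      rfl
    · rw [H46.ext0_of_not_mem _ hx]
      rfl
  obtain ⟨b₀, hb₀, heb₀, hL₀⟩ := H24.exists_blk
    (fun a : H → F => mulF (br V (PP.ext0 H a)) g)
    (by
      show mulF (br V (PP.ext0 H 0)) g = 0
      rw [hext_zero, br_zero, mulF_zero_left])
    (by
      intro a b
      show mulF (br V (PP.ext0 H (a + b))) g =
        mulF (br V (PP.ext0 H a)) g + mulF (br V (PP.ext0 H b)) g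
      rw [hext_add, br_add, H24.mulF_add_l])
    heI
    (by
      show mulF (br V E) g ≠ 0
      rw [hbrE, hL.und]
      exact hL.gam.ne)
  have hrestr : (fun t : H => PP.ext0 H b₀ t) = b₀ := H46.restr_ext0 _
  have hbx : Bx H (PP.ext0 H b₀) := by
    refine ⟨fun x hx => H46.ext0_of_not_mem _ hx, ?_⟩
    rw [hrestr]
    exact hb₀
  refine ⟨PP.ext0 H b₀, hbx, ?_, ?_⟩
  · rw [hrestr]
    exact heb₀
  · have hix := ix_br' hF hL.tp.pg hVC hXC hbx.ix
    rw [hix.comm hL.gam.ix]
    rcases hL.gam.dich' hix with h | h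
    · exact h
    · exfalso
      apply hL₀
      show mulF (br V (PP.ext0 H b₀)) g = 0
      rw [hix.comm hL.gam.ix, h]

end tools

/-- LBU -/
theorem lbu : LbuStmt := by
  intro ℓ _ F _ hF V₀ G _ _ _ _ e g i hi hL
  have hpV := hL.tp.pg
  have hlh : ∀ (W : Subgroup V₀) (b : G → F), Lb e g i W b ↔
      Lh e g i.range (Subgroup.centralizer ((W.map i : Subgroup G) : Set G)) b := fun W b =>
    ⟨fun h => ⟨h.blk, h.und, h.gam⟩, fun h => ⟨h.blk, h.und, h.gam⟩⟩
  have hWle : ∀ W : Subgroup V₀, W.map i ≤ i.range := by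
    rintro W _ ⟨v, _, rfl⟩
    exact ⟨v, rfl⟩
  have hpW : ∀ W : Subgroup V₀, IsPGroup ℓ (W.map i) := fun W => hpV.to_le (hWle W)
  have hVC : ∀ W : Subgroup V₀,
      i.range ≤ Subgroup.centralizer ((W.map i : Subgroup G) : Set G) := by
    intro W x hx
    rw [Subgroup.mem_centralizer_iff]
    intro y hy
    exact hL.ab y (hWle W hy) x hx
  have hXC : ∀ W : Subgroup V₀, Subgroup.centralizer (i.range : Set G) ≤
      Subgroup.centralizer ((W.map i : Subgroup G) : Set G) := fun W =>
    Subgroup.centralizer_le (fun x hx => hWle W hx)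
  refine ⟨?_, ?_, ?_, ?_, ?_⟩
  · intro W
    obtain ⟨b, hb⟩ := lh_exists hF hL (hVC W) (hXC W) (idem_cent hF hL.blk.1 (hpW W))
    exact ⟨b, (hlh W b).2 hb⟩
  · intro W b b' hb hb'
    exact lh_unique hF hpV (hVC W) hL.gam.ne ((hlh W b).1 hb) ((hlh W b').1 hb')
  · rw [hlh, ← MonoidHom.range_eq_map]
    have hbr : br i.range g = g := by
      funext x
      by_cases hx : x ∈ Subgroup.centralizer (i.range : Set G)
      · rw [H66.br_of_mem hx]
      · rw [H66.br_of_not_mem hx, hL.gam.supp x hx]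
    refine ⟨hL.gam, ?_, ?_⟩
    · have h1 := hL.und
      have h2 : (fun t : Subgroup.centralizer (i.range : Set G) => e t) =
          fun t : Subgroup.centralizer (i.range : Set G) => br i.range e t := by
        funext t
        exact (H66.br_of_mem t.2).symm
      have h3 := mulF_res (a := br i.range e) (Subgroup.centralizer (i.range : Set G)) g
        (fun x hx => H66.br_of_not_mem hx)
      rw [h1] at h3
      rw [h2]
      exact h3.symm
    · rw [hbr]
      exact hL.gam.ix.mul
  · rw [hlh, Subgroup.map_bot]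
    have htop : Subgroup.centralizer (((⊥ : Subgroup G) : Subgroup G) : Set G) = ⊤ := by
      rw [eq_top_iff]
      intro x _
      rw [Subgroup.mem_centralizer_iff]
      intro y hy
      have hy1 : y = 1 := hy
      rw [hy1, one_mul, mul_one]
    rw [htop]
    refine ⟨⟨fun x hx => absurd (Subgroup.mem_top x) hx, ?_⟩, ?_, hL.und⟩
    · exact H20.IsBlk_equiv (Subgroup.topEquiv : (⊤ : Subgroup G) ≃* G) hL.blk
    · exact (H20.IsBlk_equiv (Subgroup.topEquiv : (⊤ : Subgroup G) ≃* G) hL.blk).1.2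
  · intro v b
    have h1 : (Subgroup.zpowers v).map i = Subgroup.zpowers (i v) := MonoidHom.map_zpowers i v
    rw [hlh, h1, cu_eq]
    exact ⟨fun h => ⟨h.blk, h.und, h.gam⟩, fun h => ⟨h.blk, h.und, h.gam⟩⟩

end Pool.Agent.PP.SO.H89
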